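import Mathlib
import Pool.Agent.MP_0e621b_co.Forest

/-!
# The swapping statement when the girl-colour graph is a forest

For all `n` and `k` and every pair `(u, v)` in `A_{n,k}` whose bipartite girl-colour graph has no
cycle there is an involution `ι` with `[u ∘ ι, v] = W`.

Proof idea. Insert the colours one by one, each new colour meeting at most one girl that is
already present, into a word of balls grouped by girl in which equal colours never sit at positions
congruent modulo `n`; then apply the arithmetic involution of the positions.
-/

open Pool.Agent.MP0e621b in
/-- Q1 for `(u, v)` in `A_{n,k}` whose girl-colour graph is acyclic. -/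
theorem Pool.Agent.Results.MP_0e621b_co.ForestCase.result (n k : ℕ)
    (u : Fin n × Fin k → Fin n) (v : Fin n × Fin k → Fin k)
    (h : Biregular u v) (hG : (girlColourGraph u v).IsAcyclic) :
    ∃ ι : Equiv.Perm (Fin n × Fin k), (∀ e, ι (ι e) = e) ∧
      ∀ x y, mult (u ∘ ι) v x y = 1 :=
  forest_case u v h hG
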