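import Mathlib
import Pool.Agent.MP_0e621b_co.Main

/-!
# Higgins' question on matchings of `M ⊗ Mᵀ`

Both forms of the question of Higgins listed in the problem file are answered in the affirmative,
for all `n` and `k`: the form for integer matrices with row sums `k` and column sums `n`, and the
original form for 0/1 matrices (a permutation matching yields an involution matching).

Proof idea. Scale a nonnegative rational matrix with the given line sums and of minimal support
inside the support of `M` to an integer matrix. Its support has no circulation, so the colours can
be inserted one by one, each new colour meeting at most one girl that is already present, into a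
word of balls grouped by girl in which equal colours never sit at positions congruent modulo the
number of balls of one colour. Sampling the word gives letters `c (i, d)` at the positions
`k * i + d`, and an arithmetic involution `J` of the positions, built from `gcd (n, k)` and the
inverse of `k / gcd` modulo `n / gcd`, exchanges the holders so that each girl gets every colour
exactly once.
-/

/-- Higgins' question, integer-matrix form and original 0/1 form. -/
theorem Pool.Agent.Results.MP_0e621b_co.Higgins.result :
    (∀ (n k : ℕ) (M : Fin n → Fin k → ℕ), (∀ x, ∑ y, M x y = k) → (∀ y, ∑ x, M x y = n) →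
      ∃ θ : Equiv.Perm (Fin n × Fin k), (∀ w, θ (θ w) = w) ∧
        ∀ w, 0 < M w.1 (θ w).2 * M (θ w).1 w.2) ∧
    (∀ (n k : ℕ) (M : Fin n → Fin k → Prop),
      (∃ π : Equiv.Perm (Fin n × Fin k), ∀ w, M w.1 (π w).2 ∧ M (π w).1 w.2) →
      ∃ θ : Equiv.Perm (Fin n × Fin k), (∀ w, θ (θ w) = w) ∧
        ∀ w, M w.1 (θ w).2 ∧ M (θ w).1 w.2) :=
  ⟨fun _ _ M hr hc => Pool.Agent.MP0e621b.higgins_matrix M hr hc,
    fun _ _ M h => Pool.Agent.MP0e621b.higgins_zero_one M h⟩
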